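import Mathlib
import Pool.Agent.V11279.HG8

set_option autoImplicit false

/-!
# MP_eed25b_nt: `𝔄_{K[G]}` can be a Hopf order when `𝔄_λ` is not

`p ≡ 2 mod 3`, `p ≥ 5`, `K = ℚ_p`, `L` the splitting field of `X³ - p` (a tame Galois extension with
the nonabelian group `G` of order 6) and `𝔅 = 𝔒_L`.
-/

namespace Pool.Agent.Results.MP_eed25b_nt.NotHopfOrder

open Polynomial Pool.Agent.V11279.HG

theorem exists_dat (p : ℕ) [hpf : Fact p.Prime] (L : Type) [Field L] [Algebra ℚ_[p] L]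
    [IsSplittingField ℚ_[p] L (X ^ 3 - C (p : ℚ_[p]))] : Nonempty (Dat p L) := by
  classical
  have hp0 : (p : ℚ_[p]) ≠ 0 := by exact_mod_cast hpf.out.ne_zero
  have hne : (X ^ 3 - C (p : ℚ_[p])) ≠ 0 := X_pow_sub_C_ne_zero (by norm_num) _
  have hsep : (X ^ 3 - C (p : ℚ_[p])).Separable :=
    separable_X_pow_sub_C _ (by norm_num) hp0
  have hcard := card_rootSet_eq_natDegree (K := L) hsep
    (IsSplittingField.splits L (X ^ 3 - C (p : ℚ_[p])))
  rw [natDegree_X_pow_sub_C] at hcard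
  have hroot : ∀ y : L, y ∈ (X ^ 3 - C (p : ℚ_[p])).rootSet L ↔ y ^ 3 = (p : L) := by
    intro y
    rw [mem_rootSet]
    constructor
    · rintro ⟨_, h⟩
      simpa [sub_eq_zero] using h
    · intro h
      exact ⟨hne, by simpa [sub_eq_zero] using h⟩
  have h1 : 1 < Fintype.card ((X ^ 3 - C (p : ℚ_[p])).rootSet L) := by omega
  obtain ⟨⟨a, ha⟩, ⟨b, hb⟩, hab⟩ := Fintype.exists_pair_of_one_lt_card h1
  have hab' : a ≠ b := fun h => hab (Subtype.ext h)
  rw [hroot] at ha hb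
  have ha0 : a ≠ 0 := by
    intro h
    rw [h] at ha
    exact Dat.p_ne (p := p) (L := L) (by rw [← ha]; simp)
  have hζ : (b / a) ^ 2 + b / a + 1 = 0 := by
    have h2 : (b / a - 1) * ((b / a) ^ 2 + b / a + 1) = 0 := by
      have h3 : (b / a) ^ 3 = 1 := by
        rw [div_pow, ha, hb]; exact div_self Dat.p_ne
      linear_combination h3
    rcases mul_eq_zero.1 h2 with h3 | h3
    · exfalso
      apply hab'
      rw [sub_eq_zero, div_eq_one_iff_eq ha0] at h3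
      exact h3.symm
    · exact h3
  have hζ3 : (b / a) ^ 3 = 1 := by linear_combination (b / a - 1) * hζ
  refine ⟨⟨a, b / a, ha, hζ, fun g h2 h3 => ?_⟩⟩
  have h4 : ∀ y ∈ (X ^ 3 - C (p : ℚ_[p])).rootSet L, g y = y := by
    intro y hy
    rw [hroot] at hy
    have hy3 : (y / a) ^ 3 = 1 := by
      rw [div_pow, hy, ha]; exact div_self Dat.p_ne
    have h5 : (y / a - 1) * ((y / a - b / a) * (y / a - (b / a) ^ 2)) = 0 := by
      linear_combination hy3 + (y / a - 1) * (b / a - 1 - y / a) * hζ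
    have h6 : g (y / a) = y / a := by
      rcases mul_eq_zero.1 h5 with h7 | h7
      · rw [sub_eq_zero.1 h7, map_one]
      · rcases mul_eq_zero.1 h7 with h8 | h8
        · rw [sub_eq_zero.1 h8, h3]
        · rw [sub_eq_zero.1 h8, map_pow, h3]
    rw [map_div₀, h2] at h6
    field_simp at h6
    exact h6
  have h5 := IsSplittingField.adjoin_rootSet (K := ℚ_[p]) L (X ^ 3 - C (p : ℚ_[p]))
  have h6 : (g : L →ₐ[ℚ_[p]] L) = AlgHom.id ℚ_[p] L := by
    apply AlgHom.ext_of_adjoin_eq_top h5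
    intro y hy
    exact h4 y hy
  ext x
  exact DFunLike.congr_fun h6 x

/-- Let `p ≥ 5` be a prime with `p ≡ 2 mod 3`, `K = ℚ_p` and `L` the splitting field of `X³ - p`
over `K`. Then `G = Gal(L/K)` is not abelian, `p ∤ |G|`, the associated order of `𝔒_L` in `K[G]`
is a Hopf order, and the associated order of `𝔒_L` in `H_λ` is an order but not a Hopf order. -/
theorem result (p : ℕ) [Fact p.Prime] (hp5 : 5 ≤ p) (hp3 : p % 3 = 2) (L : Type) [Field L]
    [Algebra ℚ_[p] L] [IsSplittingField ℚ_[p] L (X ^ 3 - C (p : ℚ_[p]))]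
    [FiniteDimensional ℚ_[p] L] [Algebra ℤ_[p] L] [IsScalarTower ℤ_[p] ℚ_[p] L] :
    IsGalois ℚ_[p] L ∧ (∃ g h : L ≃ₐ[ℚ_[p]] L, g * h ≠ h * g) ∧
    IsHopfOrder ℤ_[p] ℚ_[p]
      (assocClass ℤ_[p] ℚ_[p] L (Subalgebra.toSubmodule (integralClosure ℤ_[p] L))) ⊤ ∧
    IsOrder ℤ_[p] ℚ_[p]
      (assocLam ℤ_[p] ℚ_[p] L (Subalgebra.toSubmodule (integralClosure ℤ_[p] L)))
      (Hlam ℚ_[p] L) ∧
    ¬ IsHopfOrder ℤ_[p] ℚ_[p]
      (assocLam ℤ_[p] ℚ_[p] L (Subalgebra.toSubmodule (integralClosure ℤ_[p] L)))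
      (Hlam ℚ_[p] L) := by
  obtain ⟨D⟩ := exists_dat p L
  have hp0 : (p : ℚ_[p]) ≠ 0 := by exact_mod_cast (Fact.out : p.Prime).ne_zero
  have hgal : IsGalois ℚ_[p] L :=
    IsGalois.of_separable_splitting_field (p := X ^ 3 - C (p : ℚ_[p]))
      (separable_X_pow_sub_C _ (by norm_num) hp0)
  have hfin : Module.Finite ℤ_[p] (integralClosure ℤ_[p] L) :=
    IsIntegralClosure.finite ℤ_[p] ℚ_[p] L _
  have hB : (Subalgebra.toSubmodule (integralClosure ℤ_[p] L)).FG := Module.Finite.iff_fg.1 hfin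
  have hspan : ∀ x : L, ∃ r : ℤ_[p], r ≠ 0 ∧
      r • x ∈ Subalgebra.toSubmodule (integralClosure ℤ_[p] L) := by
    intro x
    obtain ⟨y, hy, h⟩ := exists_integral_multiples ℤ_[p] ℚ_[p] (L := L) {x}
    exact ⟨y, hy, h x (by simp)⟩
  have hn : IsUnit ((Nat.card (L ≃ₐ[ℚ_[p]] L) : ℕ) : ℤ_[p]) := by
    rw [PadicInt.isUnit_iff, PadicInt.norm_natCast_eq_one_iff]
    exact (Nat.Prime.coprime_iff_not_dvd Fact.out).2 (D.not_dvd_card hp5 hp3)
  refine ⟨hgal, D.noncomm hp5 hp3, ?_, isOrder_assocLam _ hB hspan, D.not_hopf hp5 hp3⟩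
  apply isHopfOrder_assocClass _ hB hspan _ hn
  intro g x hx
  exact Dat.int_map g hx

end Pool.Agent.Results.MP_eed25b_nt.NotHopfOrder
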